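import Pool.Agent.Run7.h501.FE.Expo

/-!
# A diffeomorphism with `h(ρ) < ∫ χ₊ dρ` for every invariant probability measure

We give a real-analytic diffeomorphism `f` of the two-torus such that `h(ρ) = 0` and
`∫ χ₊ dρ ≥ log (9/8)` for all invariant Borel probability measures `ρ`. So the supremum of
`h(ρ) - ∫ χ₊ dρ` over all invariant measures is negative: Q1 has a negative answer.

On `ℝ²/(2πℤ)²` the diffeomorphism is
`f(x, y) = (x + sin x (cos y - cos x / 2) / 4, y - sin y (cos x + cos y / 2) / 4)`.
It has four saddles, the points with `sin x = sin y = 0`, and four sources, the points with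
`cos x = cos y = 0`. The circles `sin x = 0` and `sin y = 0` consist of the saddles and of their
connections, which form attracting heteroclinic cycles: `|sin x sin y|` decreases strictly along all
orbits off these circles, except at the sources. On the circles `cos x cos y` is strictly monotone
off the saddles. So all invariant measures are convex combinations of the eight Dirac measures at the
fixed points, and `χ₊` is positive at all of them.

The definitions (lifts to `ℝ²`, Oseledets splitting, `χ₊`) are in `Pool.Agent.Run7.h501.FE.Defs`, the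
Kolmogorov-Sinai entropy `ksEntropy` is defined in `Pool.Agent.Q127.KI.Stm`.
-/

set_option autoImplicit false

open MeasureTheory Filter Topology Set
open Run7.h501.FE

namespace Pool.Agent.Results.MP_794bd6_an.NoMeasureAttains

/-- There is a real-analytic diffeomorphism `f` of the two-torus (with lifts `F` of `f` and `G` of
`f⁻¹`) such that for every `f`-invariant Borel probability measure `ρ` the sum `χ₊` of the positive
Lyapunov exponents exists `ρ`-almost everywhere, is `ρ`-integrable, and `h(ρ) < ∫ χ₊ dρ`; more
precisely `h(ρ) = 0` and `∫ χ₊ dρ ≥ log (9/8)`. -/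
theorem result : ∃ (f : Torus ≃ₜ Torus) (F G : Plane → Plane), IsAnalyticDiffeo f F G ∧
    ∀ ρ : Measure Torus, IsInvariant f ρ →
      (∀ᵐ x ∂ρ, ∀ z, proj z = x → ∃ c, IsChiPlus F G z c) ∧
      ∀ χp : Torus → ℝ, (∀ᵐ x ∂ρ, ∀ z, proj z = x → IsChiPlus F G z (χp x)) →
        Integrable χp ρ ∧
        Pool.Agent.Q127.KI.ksEntropy f ρ < ((∫ x, χp x ∂ρ : ℝ) : EReal) ∧
        Pool.Agent.Q127.KI.ksEntropy f ρ = 0 ∧ Real.log (9 / 8) ≤ ∫ x, χp x ∂ρ := by
  refine ⟨ff, FF, GG, ff_diffeo, fun ρ hρ => ⟨?_, fun χp hχ => ?_⟩⟩
  · filter_upwards [ae_mem_PP hρ] with x hx z hz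
    subst hz
    exact exists_chi hx
  · have := hρ.prob
    have hint : Integrable χp ρ := by
      classical
      have hmeas : Measurable (PP.indicator χp) := by
        intro B _
        have h0 : PP.indicator χp ⁻¹' B =
            (PP ∩ χp ⁻¹' B) ∪ (PPᶜ ∩ {_x : Torus | (0 : ℝ) ∈ B}) := by
          ext x
          by_cases hx : x ∈ PP <;> simp [hx]
        rw [h0]
        exact (PP_finite.inter_of_left _).measurableSet.union
          (PP_finite.measurableSet.compl.inter (MeasurableSet.const _))
      obtain ⟨C, hC⟩ : ∃ C, ∀ x ∈ PP, |χp x| ≤ C := by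
        obtain ⟨C, hC⟩ := (PP_finite.image fun x => |χp x|).bddAbove
        exact ⟨C, fun x hx => hC ⟨x, hx, rfl⟩⟩
      have h1 : Integrable (PP.indicator χp) ρ :=
        Integrable.of_bound hmeas.aestronglyMeasurable (max C 0) (Eventually.of_forall fun x => by
          by_cases hx : x ∈ PP
          · rw [indicator_of_mem hx]; exact (hC x hx).trans (le_max_left _ _)
          · rw [indicator_of_notMem hx, norm_zero]; exact le_max_right _ _)
      refine h1.congr ?_
      filter_upwards [ae_mem_PP hρ] with x hx
      rw [indicator_of_mem hx]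
    have hlow : Real.log (9 / 8) ≤ ∫ x, χp x ∂ρ := by
      have h1 : ∫ _x : Torus, Real.log (9 / 8) ∂ρ ≤ ∫ x, χp x ∂ρ := by
        refine integral_mono_ae (integrable_const _) hint ?_
        filter_upwards [ae_mem_PP hρ, hχ] with x hx hx2
        obtain ⟨z, rfl⟩ := proj_surj x
        exact chi_lower hx (hx2 z rfl)
      simpa using h1
    have hlog : (0 : ℝ) < Real.log (9 / 8) := Real.log_pos (by norm_num)
    refine ⟨hint, ?_, entropy_zero hρ, hlow⟩
    rw [entropy_zero hρ]
    exact_mod_cast hlog.trans_le hlow

end Pool.Agent.Results.MP_794bd6_an.NoMeasureAttains
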